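import Pool.Agent.Helper84.TL.Defs

/-!
# Project TL, module TL-K: averaging over subsets
-/

set_option autoImplicit false

namespace Pool.Agent.Helper84.TL

open Finset

namespace ChainAux

/-- Double counting of pairs: a subset with `m + 1` elements and one of its elements. -/
theorem sum_erase {α : Type*} [DecidableEq α] (M : Finset α) (F : Finset α → α → ℝ) (m : ℕ) :
    ∑ Y ∈ M.powersetCard (m + 1), ∑ s ∈ Y, F (Y.erase s) s =
      ∑ Y ∈ M.powersetCard m, ∑ s ∈ M \ Y, F Y s := by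
  rw [Finset.sum_sigma', Finset.sum_sigma']
  refine Finset.sum_bij' (fun a _ => (⟨a.1.erase a.2, a.2⟩ : Σ _ : Finset α, α))
    (fun a _ => (⟨insert a.2 a.1, a.2⟩ : Σ _ : Finset α, α)) ?_ ?_ ?_ ?_ ?_
  · rintro ⟨Y, s⟩ h
    simp only [mem_sigma, mem_powersetCard, mem_sdiff, mem_erase] at h ⊢
    refine ⟨⟨(erase_subset _ _).trans h.1.1, ?_⟩, h.1.1 h.2, fun h' => h'.1 rfl⟩
    rw [card_erase_of_mem h.2, h.1.2]
    rfl
  · rintro ⟨Y, s⟩ h
    simp only [mem_sigma, mem_powersetCard, mem_sdiff] at h ⊢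
    refine ⟨⟨insert_subset h.2.1 h.1.1, ?_⟩, mem_insert_self _ _⟩
    rw [card_insert_of_notMem h.2.2, h.1.2]
  · rintro ⟨Y, s⟩ h
    simp only [mem_sigma] at h
    simp [insert_erase h.2]
  · rintro ⟨Y, s⟩ h
    simp only [mem_sigma, mem_sdiff] at h
    simp [erase_insert h.2.2]
  · rintro ⟨Y, s⟩ _
    rfl

theorem choose_pos' {N m : ℕ} (h : m ≤ N) : (0 : ℝ) < (N.choose m : ℝ) := by
  exact_mod_cast Nat.choose_pos h

theorem choose_step {N m : ℕ} (h : m + 1 ≤ N) :
    (N.choose (m + 1) : ℝ) * ((m : ℝ) + 1) = (N.choose m : ℝ) * ((N : ℝ) - m) := by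
  have h1 := Nat.choose_succ_right_eq N m
  have h2 : ((N - m : ℕ) : ℝ) = (N : ℝ) - m := by
    rw [Nat.cast_sub (by omega)]
  rw [← h2]
  exact_mod_cast h1

end ChainAux

theorem chain {n : ℕ} (M : Finset (Fin n)) (h : Finset (Fin n) → ℝ)
    (c : Finset (Fin n) → Fin n → ℝ) (h0 : h ∅ = 0)
    (hstep : ∀ Y, Y ⊆ M → ∀ s ∈ Y, h Y ≤ c Y s + h (Y.erase s)) {m : ℕ} (hm : m ≤ M.card) :
    av' M m h ≤ ∑ j ∈ Icc 1 m, av' M j (fun Y => (∑ s ∈ Y, c Y s) / j) := by
  induction m with
  | zero => simp [av', h0]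
  | succ m ih =>
    have ih' := ih (by omega)
    rw [Finset.sum_Icc_succ_top (by omega)]
    have hj : (0 : ℝ) < ((m + 1 : ℕ) : ℝ) := by positivity
    have hC := ChainAux.choose_pos' hm
    have hC' := ChainAux.choose_pos' (show m ≤ M.card by omega)
    have hNm : ((M.card : ℝ) - m) ≠ 0 := by
      have : (m : ℝ) + 1 ≤ M.card := by exact_mod_cast hm
      intro h
      linarith
    have key : av' M (m + 1) h ≤ av' M (m + 1) (fun Y => (∑ s ∈ Y, c Y s) / ((m + 1 : ℕ) : ℝ)) +
        av' M m h := by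
      have h1 : ∑ Y ∈ M.powersetCard (m + 1), h Y ≤
          ∑ Y ∈ M.powersetCard (m + 1), ((∑ s ∈ Y, c Y s) / ((m + 1 : ℕ) : ℝ) +
            (∑ s ∈ Y, h (Y.erase s)) / ((m + 1 : ℕ) : ℝ)) := by
        refine Finset.sum_le_sum (fun Y hY => ?_)
        rw [mem_powersetCard] at hY
        have h2 : ∑ _s ∈ Y, h Y ≤ ∑ s ∈ Y, (c Y s + h (Y.erase s)) :=
          Finset.sum_le_sum (fun s hs => hstep Y hY.1 s hs)
        rw [sum_const, hY.2, nsmul_eq_mul, Finset.sum_add_distrib] at h2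
        rw [← add_div, le_div_iff₀ hj]
        linarith
      rw [Finset.sum_add_distrib, ← Finset.sum_div _ (fun Y => ∑ s ∈ Y, h (Y.erase s))] at h1
      rw [ChainAux.sum_erase M (fun Y _ => h Y) m] at h1
      have h3 : ∑ Y ∈ M.powersetCard m, ∑ _s ∈ M \ Y, h Y =
          ((M.card : ℝ) - m) * ∑ Y ∈ M.powersetCard m, h Y := by
        rw [Finset.mul_sum]
        refine Finset.sum_congr rfl (fun Y hY => ?_)
        rw [mem_powersetCard] at hY
        rw [sum_const, card_sdiff_of_subset hY.1, hY.2, nsmul_eq_mul,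
          Nat.cast_sub (by omega)]
      rw [h3] at h1
      unfold av'
      have h4 : (∑ Y ∈ M.powersetCard m, h Y) / (M.card.choose m : ℝ) =
          (((M.card : ℝ) - m) * ∑ Y ∈ M.powersetCard m, h Y) / ((m + 1 : ℕ) : ℝ) /
            (M.card.choose (m + 1) : ℝ) := by
        have h5 := ChainAux.choose_step hm
        rw [div_div, div_eq_div_iff hC'.ne' (by positivity)]
        push_cast
        rw [mul_comm ((m : ℝ) + 1), h5]
        ring
      rw [h4, ← add_div]
      exact div_le_div_of_nonneg_right h1 hC.le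
    linarith

/-- The average number of cells in a random set of symbols. -/
theorem av_sum {n : ℕ} (M : Finset (Fin n)) (f : Fin n → ℝ) {m : ℕ} (hm : m ≤ M.card) :
    av' M m (fun Y => ∑ s ∈ Y, f s) = (m : ℝ) / M.card * ∑ s ∈ M, f s := by
  rcases Nat.eq_zero_or_pos M.card with hN | hN
  · have hm0 : m = 0 := by omega
    subst hm0
    simp [av']
  have hN' : (M.card : ℝ) ≠ 0 := by positivity
  have key : ∀ m : ℕ, m ≤ M.card → ∑ Y ∈ M.powersetCard m, ∑ s ∈ Y, f s =
      (M.card.choose m : ℝ) * ((m : ℝ) / M.card * ∑ s ∈ M, f s) := by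
    intro m
    induction m with
    | zero => intro _; simp
    | succ m ih =>
      intro hm
      have h1 := ChainAux.sum_erase M (fun _ s => f s) m
      have h2 : ∑ Y ∈ M.powersetCard m, ∑ s ∈ M \ Y, f s =
          ∑ Y ∈ M.powersetCard m, (∑ s ∈ M, f s - ∑ s ∈ Y, f s) := by
        refine Finset.sum_congr rfl (fun Y hY => ?_)
        rw [mem_powersetCard] at hY
        rw [← Finset.sum_sdiff hY.1]
        ring
      rw [h1, h2, Finset.sum_sub_distrib, sum_const, card_powersetCard, nsmul_eq_mul,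
        ih (by omega)]
      have h5 := ChainAux.choose_step hm
      push_cast
      field_simp
      linear_combination (-(∑ s ∈ M, f s)) * h5
  unfold av'
  rw [key m hm, mul_comm, mul_div_assoc, div_self (ChainAux.choose_pos' hm).ne', mul_one]

end Pool.Agent.Helper84.TL
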